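import Pool.Agent.Lib.BAC.All

/-! The sharp exponent for harmonic measure in ball and chain domains is `1 / 3`. -/

namespace Pool.Agent.Results.MP_30cfc2_an.SharpExponent

open Pool.Agent.BAC

theorem result :
    IsGreatest
      {γ : ℝ | ∃ C : ℝ, ∀ (n : ℕ) (ε : ℝ) (c : Fin n → ℝ) (Ω : Set ℂ) (z₀ : ℂ),
        BallChain n ε c Ω z₀ →
          hm z₀ (frontier Ω ∩ ⋃ j, Metric.closedBall (c j : ℂ) ε) Ω ≤ C * ((n : ℝ) * ε) ^ γ}
      (1 / 3) :=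
  ⟨all_UP, fun γ ⟨C, hC⟩ => all_LOW γ C hC⟩

end Pool.Agent.Results.MP_30cfc2_an.SharpExponent
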